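import Pool.Agent.Helper14.LT.Van

/-!
Project LT (MP_b8862a_ag), blocks DA, DM: Weyl's formula for the Cartan products of `Λ^i` and its dual, and for the
middle exterior power, type `A`.
-/

set_option linter.unusedSectionVars false
set_option linter.unusedVariables false

open Finset PF TF PW

namespace LT

/-- the Vandermonde product of an interval -/
noncomputable def VR24 (m : ℕ) : ℝ := ∏ i : Fin m, ∏ j ∈ Finset.Ioi i, ((j.val : ℝ) - (i.val : ℝ))

theorem VR24_pos (m : ℕ) : 0 < VR24 m := by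
  unfold VR24
  refine Finset.prod_pos fun i _ => Finset.prod_pos fun j hj => ?_
  have h1 : i < j := Finset.mem_Ioi.1 hj
  have h2 : ((i.val : ℝ)) < (j.val : ℝ) := by exact_mod_cast h1
  linarith

theorem PaR_zero24 (m : ℕ) : PaR m 0 = VR24 m := by
  unfold PaR VR24
  refine prod_congr rfl fun i _ => prod_congr rfl fun j _ => ?_
  simp

theorem Pa_cast24 (m : ℕ) (x : Fin m → ℤ) : ((Pa m x : ℤ) : ℝ) = PaR m (fun i => (x i : ℝ)) := by
  unfold Pa PaR
  push_cast
  rfl

/-- the factor of one index of an interval -/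
theorem fac_one24 {m K : ℕ} (hK : K ≤ m) :
    ∏ i : Fin m, (if (⟨K, by omega⟩ : Fin (m + 1)).succAbove i < (⟨K, by omega⟩ : Fin (m + 1)) then
      ((K : ℝ) - (((⟨K, by omega⟩ : Fin (m + 1)).succAbove i).val : ℝ)) else
      ((((⟨K, by omega⟩ : Fin (m + 1)).succAbove i).val : ℝ) - (K : ℝ))) =
      ((K.factorial * (m - K).factorial : ℕ) : ℝ) := by
  set K' : Fin (m + 1) := ⟨K, by omega⟩ with hK'
  have h5 := prod_remove14 (m := m) (K := K) hK
    (fun j => if j < K then ((K : ℝ) - (j : ℝ)) else ((j : ℝ) - (K : ℝ)))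
    (fun j => if j < K' then ((K : ℝ) - (j.val : ℝ)) else ((j.val : ℝ) - (K : ℝ))) (by
      intro j hj
      by_cases h : j.val < K
      · have h' : j < K' := by rw [Fin.lt_def]; exact h
        simp only [if_pos h, if_pos h']
      · have h' : ¬ j < K' := by rw [Fin.lt_def]; exact h
        simp only [if_neg h, if_neg h'])
  rw [← hK'] at h5
  rw [h5, Nat.cast_mul]
  congr 1
  · rw [← Nat.descFactorial_self, Nat.descFactorial_eq_prod_range, Nat.cast_prod]
    refine prod_congr rfl fun j hj => ?_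
    rw [if_pos (mem_range.1 hj), Nat.cast_sub (mem_range.1 hj).le]
  · rw [← prod_range_add_one_eq_factorial, Nat.cast_prod]
    refine prod_congr rfl fun j hj => ?_
    rw [if_neg (by omega)]
    push_cast
    ring

/-- one index removed -/
theorem VR24_remove (m K : ℕ) (hK : K ≤ m) :
    VR24 (m + 1) = (∏ i : Fin m, ∏ j ∈ Finset.Ioi i,
      ((((⟨K, by omega⟩ : Fin (m + 1)).succAbove j).val : ℝ) - (((⟨K, by omega⟩ : Fin (m + 1)).succAbove i).val : ℝ))) *
      ((K.factorial * (m - K).factorial : ℕ) : ℝ) := by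
  unfold VR24
  rw [vand_remove14 (fun i j => ((j.val : ℝ) - (i.val : ℝ))) (⟨K, by omega⟩ : Fin (m + 1)), ← fac_one24 hK]

theorem VR24_succ (m : ℕ) : VR24 (m + 1) = VR24 m * (m.factorial : ℕ) := by
  rw [VR24_remove m m le_rfl, Nat.sub_self, Nat.factorial_zero, mul_one]
  congr 1
  unfold VR24
  refine prod_congr rfl fun i _ => prod_congr rfl fun j _ => ?_
  have h1 : ∀ i : Fin m, ((⟨m, by omega⟩ : Fin (m + 1)).succAbove i).val = i.val := by
    intro i
    rw [Fin.succAbove_of_castSucc_lt]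
    · rfl
    · rw [Fin.lt_def]
      exact i.2
  rw [h1, h1]

theorem val_succAbove24 {m K : ℕ} (hK : K ≤ m) (i : Fin m) :
    ((⟨K, by omega⟩ : Fin (m + 1)).succAbove i).val = if i.val < K then i.val else i.val + 1 := by
  by_cases h : i.val < K
  · rw [if_pos h, Fin.succAbove_of_castSucc_lt]
    · rfl
    · rw [Fin.lt_def]
      exact h
  · rw [if_neg h, Fin.succAbove_of_le_castSucc]
    · rfl
    · rw [Fin.le_def]
      exact not_lt.1 h

/-- BLOCK DM (`PaR` is the real form of `Pa`, Helper43/PX/Dim) -/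
theorem dimM24 {k n : ℕ} (hk : 1 ≤ k) (x : Fin (2 * k) → ℝ)
    (hx : ∀ j : Fin (2 * k), x j = if (j : ℕ) < k then 1 / 2 else -(1 / 2))
    (h : n * PaR (2 * k) 0 = PaR (2 * k) x) : n = (2 * k).choose k := by
  have h1 := VR24_remove (2 * k) k (by omega)
  have h2 : PaR (2 * k) x = ∏ i : Fin (2 * k), ∏ j ∈ Finset.Ioi i,
      ((((⟨k, by omega⟩ : Fin (2 * k + 1)).succAbove j).val : ℝ) -
        (((⟨k, by omega⟩ : Fin (2 * k + 1)).succAbove i).val : ℝ)) := by
    unfold PaR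
    refine prod_congr rfl fun i _ => prod_congr rfl fun j _ => ?_
    rw [val_succAbove24 (by omega), val_succAbove24 (by omega), hx, hx]
    split_ifs <;> push_cast <;> ring
  rw [← h2, ← h, VR24_succ, PaR_zero24, show 2 * k - k = k by omega] at h1
  have h3 := VR24_pos (2 * k)
  have h4 : (((2 * k).factorial : ℕ) : ℝ) = n * ((k.factorial * k.factorial : ℕ) : ℝ) := by
    refine mul_left_cancel₀ h3.ne' ?_
    linear_combination h1
  have h5 : (2 * k).factorial = n * (k.factorial * k.factorial) := by exact_mod_cast h4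
  have h6 := Nat.choose_mul_factorial_mul_factorial (show k ≤ 2 * k by omega)
  rw [show 2 * k - k = k by omega, h5, mul_assoc] at h6
  exact (Nat.eq_of_mul_eq_mul_right (by positivity) h6).symm

/-- the second factor -/
theorem fac_two24 {m i : ℕ} (hi : 1 ≤ i) (hm : 2 * i ≤ m) :
    (∏ t : Fin m, (if (⟨i, by omega⟩ : Fin (m + 1)).succAbove t < (⟨i, by omega⟩ : Fin (m + 1)) then
      ((((⟨m + 1 - i, by omega⟩ : Fin (m + 2)).succAbove (⟨i, by omega⟩ : Fin (m + 1))).val : ℝ) -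
        (((⟨m + 1 - i, by omega⟩ : Fin (m + 2)).succAbove ((⟨i, by omega⟩ : Fin (m + 1)).succAbove t)).val : ℝ)) else
      ((((⟨m + 1 - i, by omega⟩ : Fin (m + 2)).succAbove ((⟨i, by omega⟩ : Fin (m + 1)).succAbove t)).val : ℝ) -
        (((⟨m + 1 - i, by omega⟩ : Fin (m + 2)).succAbove (⟨i, by omega⟩ : Fin (m + 1))).val : ℝ)))) *
      ((m + 1 - 2 * i).factorial : ℕ) =
      ((i.factorial * (m - 2 * i).factorial * (m + 1 - i).factorial : ℕ) : ℝ) := by
  set K' : Fin (m + 1) := ⟨i, by omega⟩ with hK'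
  have hv : ∀ t : Fin (m + 1), (((⟨m + 1 - i, by omega⟩ : Fin (m + 2)).succAbove t).val : ℝ) =
      if t.val < m + 1 - i then (t.val : ℝ) else (t.val : ℝ) + 1 := by
    intro t
    rw [val_succAbove24 (by omega)]
    split_ifs <;> push_cast <;> ring
  have hvi : (((⟨m + 1 - i, by omega⟩ : Fin (m + 2)).succAbove K').val : ℝ) = i := by
    rw [hv, if_pos (by show i < m + 1 - i; omega)]
  have h5 := prod_remove14 (m := m) (K := i) (by omega)
    (fun j => if j < i then ((i : ℝ) - (j : ℝ)) else if j < m + 1 - i then ((j : ℝ) - (i : ℝ)) else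
      ((j : ℝ) + 1 - (i : ℝ)))
    (fun t => if t < K' then
      ((((⟨m + 1 - i, by omega⟩ : Fin (m + 2)).succAbove K').val : ℝ) -
        (((⟨m + 1 - i, by omega⟩ : Fin (m + 2)).succAbove t).val : ℝ)) else
      ((((⟨m + 1 - i, by omega⟩ : Fin (m + 2)).succAbove t).val : ℝ) -
        (((⟨m + 1 - i, by omega⟩ : Fin (m + 2)).succAbove K').val : ℝ))) (by
      intro j hj
      by_cases h : j.val < i
      · have h' : j < K' := by rw [Fin.lt_def]; exact h
        simp only [if_pos h, if_pos h', hvi, hv]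
        rw [if_pos (by omega)]
      · have h' : ¬ j < K' := by rw [Fin.lt_def]; exact h
        simp only [if_neg h, if_neg h', hvi, hv]
        split_ifs <;> ring)
  rw [← hK'] at h5
  rw [h5]
  have e1 : (∏ j ∈ range i, (if j < i then ((i : ℝ) - (j : ℝ)) else if j < m + 1 - i then ((j : ℝ) - (i : ℝ)) else
      ((j : ℝ) + 1 - (i : ℝ)))) = ((i.factorial : ℕ) : ℝ) := by
    rw [← Nat.descFactorial_self, Nat.descFactorial_eq_prod_range, Nat.cast_prod]
    refine prod_congr rfl fun j hj => ?_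
    rw [if_pos (mem_range.1 hj), Nat.cast_sub (mem_range.1 hj).le]
  have e2 : (∏ j ∈ range (m - i), (if i + 1 + j < i then ((i : ℝ) - ((i + 1 + j : ℕ) : ℝ)) else
      if i + 1 + j < m + 1 - i then (((i + 1 + j : ℕ) : ℝ) - (i : ℝ)) else
      (((i + 1 + j : ℕ) : ℝ) + 1 - (i : ℝ)))) =
      (((m - 2 * i).factorial * (m + 1 - 2 * i + 1).ascFactorial i : ℕ) : ℝ) := by
    rw [show m - i = (m - 2 * i) + i by omega, prod_range_add, Nat.cast_mul]
    congr 1
    · rw [← prod_range_add_one_eq_factorial, Nat.cast_prod]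
      refine prod_congr rfl fun j hj => ?_
      have := mem_range.1 hj
      rw [if_neg (by omega), if_pos (by omega)]
      push_cast
      ring
    · rw [Nat.ascFactorial_eq_prod_range, Nat.cast_prod]
      refine prod_congr rfl fun j hj => ?_
      rw [if_neg (by omega), if_neg (by omega)]
      have h7 : i + 1 + (m - 2 * i + j) + 1 = (m + 1 - 2 * i + 1 + j) + i := by omega
      have h8 : ((i + 1 + (m - 2 * i + j) + 1 : ℕ) : ℝ) = ((m + 1 - 2 * i + 1 + j : ℕ) : ℝ) + i := by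
        rw [h7]
        push_cast
        ring
      push_cast at h8 ⊢
      linarith
  rw [e1, e2, ← Nat.cast_mul, ← Nat.cast_mul]
  congr 1
  have h9 := Nat.factorial_mul_ascFactorial (m + 1 - 2 * i) i
  rw [show m + 1 - 2 * i + i = m + 1 - i by omega] at h9
  rw [← h9]
  ring

/-- BLOCK DA -/
theorem dimA24 {m i n : ℕ} (hi : 1 ≤ i) (hm : 2 * i ≤ m) (x : Fin m → ℤ)
    (hx : ∀ j : Fin m, x j = if (j : ℕ) < i then 1 else if m ≤ j + i then -1 else 0)
    (h : n * Pa m 0 = Pa m x) : n + m.choose (i - 1) ^ 2 = m.choose i ^ 2 := by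
  have hR : (n : ℝ) * PaR m 0 = PaR m (fun j => (x j : ℝ)) := by
    have h1 : (((n : ℤ) * Pa m 0 : ℤ) : ℝ) = ((Pa m x : ℤ) : ℝ) := by rw [h]
    rw [Int.cast_mul, Pa_cast24, Pa_cast24] at h1
    have h2 : (fun i : Fin m => ((((0 : Fin m → ℤ) i : ℤ) : ℝ))) = 0 := by
      funext i
      simp
    rw [h2] at h1
    exact_mod_cast h1
  -- two indices removed
  have h1 := VR24_remove (m + 1) (m + 1 - i) (by omega)
  rw [vand_remove14 (fun a b : Fin (m + 1) =>
    ((((⟨m + 1 - i, by omega⟩ : Fin (m + 1 + 1)).succAbove b).val : ℝ) -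
      (((⟨m + 1 - i, by omega⟩ : Fin (m + 1 + 1)).succAbove a).val : ℝ))) (⟨i, by omega⟩ : Fin (m + 1))] at h1
  have h2 : PaR m (fun j => (x j : ℝ)) = ∏ a : Fin m, ∏ b ∈ Finset.Ioi a,
      ((((⟨m + 1 - i, by omega⟩ : Fin (m + 1 + 1)).succAbove ((⟨i, by omega⟩ : Fin (m + 1)).succAbove b)).val : ℝ) -
        (((⟨m + 1 - i, by omega⟩ : Fin (m + 1 + 1)).succAbove ((⟨i, by omega⟩ : Fin (m + 1)).succAbove a)).val : ℝ)) := by
    have hv : ∀ t : Fin m, ((((⟨m + 1 - i, by omega⟩ : Fin (m + 1 + 1)).succAbove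
        ((⟨i, by omega⟩ : Fin (m + 1)).succAbove t)).val : ℝ)) = (t.val : ℝ) + 1 - x t := by
      intro t
      rw [val_succAbove24 (by omega), val_succAbove24 (by omega), hx]
      by_cases h1 : t.val < i
      · rw [if_pos h1, if_pos h1, if_pos (by omega)]
        push_cast
        ring
      · rw [if_neg h1, if_neg h1]
        by_cases h2 : m ≤ t.val + i
        · rw [if_pos h2, if_neg (by omega)]
          push_cast
          ring
        · rw [if_neg h2, if_pos (by omega)]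
          push_cast
          ring
    unfold PaR
    refine prod_congr rfl fun a _ => prod_congr rfl fun b _ => ?_
    rw [hv, hv]
    ring
  rw [← h2, ← hR, VR24_succ, VR24_succ, PaR_zero24, show m + 1 - (m + 1 - i) = i by omega] at h1
  have h3 := fac_two24 hi hm
  obtain ⟨B, hB⟩ : ∃ B : ℝ, B = ∏ t : Fin m, (if (⟨i, by omega⟩ : Fin (m + 1)).succAbove t < (⟨i, by omega⟩ : Fin (m + 1)) then
      ((((⟨m + 1 - i, by omega⟩ : Fin (m + 2)).succAbove (⟨i, by omega⟩ : Fin (m + 1))).val : ℝ) -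
        (((⟨m + 1 - i, by omega⟩ : Fin (m + 2)).succAbove ((⟨i, by omega⟩ : Fin (m + 1)).succAbove t)).val : ℝ)) else
      ((((⟨m + 1 - i, by omega⟩ : Fin (m + 2)).succAbove ((⟨i, by omega⟩ : Fin (m + 1)).succAbove t)).val : ℝ) -
        (((⟨m + 1 - i, by omega⟩ : Fin (m + 2)).succAbove (⟨i, by omega⟩ : Fin (m + 1))).val : ℝ))) := ⟨_, rfl⟩
  rw [← hB] at h1 h3
  have h4 : ((m.factorial * (m + 1).factorial : ℕ) : ℝ) = n * B * (((m + 1 - i).factorial * i.factorial : ℕ) : ℝ) := by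
    refine mul_left_cancel₀ (VR24_pos m).ne' ?_
    push_cast
    push_cast at h1
    linear_combination h1
  have h5 : m.factorial * (m + 1).factorial * (m + 1 - 2 * i).factorial =
      n * (i.factorial * (m - 2 * i).factorial * (m + 1 - i).factorial) * ((m + 1 - i).factorial * i.factorial) := by
    have h6 : ((m.factorial * (m + 1).factorial * (m + 1 - 2 * i).factorial : ℕ) : ℝ) =
        ((n * (i.factorial * (m - 2 * i).factorial * (m + 1 - i).factorial) *
          ((m + 1 - i).factorial * i.factorial) : ℕ) : ℝ) := by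
      push_cast at h3 h4 ⊢
      linear_combination (((m + 1 - 2 * i).factorial : ℕ) : ℝ) * h4 +
        (n : ℝ) * ((m + 1 - i).factorial : ℕ) * (i.factorial : ℕ) * h3
    exact_mod_cast h6
  -- binomial coefficients
  obtain ⟨i', rfl⟩ : ∃ i', i = i' + 1 := ⟨i - 1, by omega⟩
  obtain ⟨r, rfl⟩ : ∃ r, m = 2 * (i' + 1) + r := ⟨m - 2 * (i' + 1), by omega⟩
  have c1 := Nat.choose_mul_factorial_mul_factorial (show i' + 1 ≤ 2 * (i' + 1) + r by omega)
  have c2 := Nat.choose_mul_factorial_mul_factorial (show i' ≤ 2 * (i' + 1) + r by omega)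
  rw [show 2 * (i' + 1) + r - (i' + 1) = i' + 1 + r by omega] at c1
  rw [show 2 * (i' + 1) + r - i' = i' + 1 + r + 1 by omega, Nat.factorial_succ (i' + 1 + r)] at c2
  rw [show 2 * (i' + 1) + r + 1 - 2 * (i' + 1) = r + 1 by omega, show 2 * (i' + 1) + r - 2 * (i' + 1) = r by omega,
    show 2 * (i' + 1) + r + 1 - (i' + 1) = i' + 1 + r + 1 by omega, Nat.factorial_succ r,
    Nat.factorial_succ (i' + 1 + r), Nat.factorial_succ (2 * (i' + 1) + r)] at h5
  rw [Nat.add_sub_cancel]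
  rw [Nat.factorial_succ i'] at c1 h5
  obtain ⟨M, hM⟩ : ∃ M, M = (2 * (i' + 1) + r).factorial := ⟨_, rfl⟩
  obtain ⟨F, hF⟩ : ∃ F, F = i'.factorial := ⟨_, rfl⟩
  obtain ⟨R, hRr⟩ : ∃ R, R = r.factorial := ⟨_, rfl⟩
  obtain ⟨Q, hQ⟩ : ∃ Q, Q = (i' + 1 + r).factorial := ⟨_, rfl⟩
  obtain ⟨C1, hC1⟩ : ∃ C, C = (2 * (i' + 1) + r).choose (i' + 1) := ⟨_, rfl⟩
  obtain ⟨C2, hC2⟩ : ∃ C, C = (2 * (i' + 1) + r).choose i' := ⟨_, rfl⟩
  have hF0 : 0 < F := by rw [hF]; positivity
  have hR0 : 0 < R := by rw [hRr]; positivity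
  have hQ0 : 0 < Q := by rw [hQ]; positivity
  rw [← hM, ← hF, ← hRr, ← hQ] at h5
  rw [← hM, ← hF, ← hQ, ← hC1] at c1
  rw [← hM, ← hF, ← hQ, ← hC2] at c2
  rw [← hC1, ← hC2]
  -- cancel `R`
  have h6 : M * ((2 * (i' + 1) + r + 1) * M) * (r + 1) =
      n * ((i' + 1) * F * ((i' + 1 + r + 1) * Q)) * ((i' + 1 + r + 1) * Q * ((i' + 1) * F)) := by
    refine Nat.eq_of_mul_eq_mul_right hR0 ?_
    calc M * ((2 * (i' + 1) + r + 1) * M) * (r + 1) * R = M * ((2 * (i' + 1) + r + 1) * M) * ((r + 1) * R) := by ring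
      _ = _ := h5
      _ = _ := by ring
  have hG : 0 < ((i' + 1) * F * ((i' + 1 + r + 1) * Q)) ^ 2 := by positivity
  refine Nat.eq_of_mul_eq_mul_right hG ?_
  have e1 : C1 * ((i' + 1) * F * ((i' + 1 + r + 1) * Q)) = (i' + 1 + r + 1) * M := by
    rw [← c1]
    ring
  have e2 : C2 * ((i' + 1) * F * ((i' + 1 + r + 1) * Q)) = (i' + 1) * M := by
    rw [← c2]
    ring
  calc (n + C2 ^ 2) * ((i' + 1) * F * ((i' + 1 + r + 1) * Q)) ^ 2 =
      n * ((i' + 1) * F * ((i' + 1 + r + 1) * Q)) * ((i' + 1 + r + 1) * Q * ((i' + 1) * F)) +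
        (C2 * ((i' + 1) * F * ((i' + 1 + r + 1) * Q))) ^ 2 := by ring
    _ = M * ((2 * (i' + 1) + r + 1) * M) * (r + 1) + ((i' + 1) * M) ^ 2 := by rw [← h6, e2]
    _ = ((i' + 1 + r + 1) * M) ^ 2 := by ring
    _ = (C1 * ((i' + 1) * F * ((i' + 1 + r + 1) * Q))) ^ 2 := by rw [e1]
    _ = C1 ^ 2 * ((i' + 1) * F * ((i' + 1 + r + 1) * Q)) ^ 2 := by ring

end LT
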